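import Pool.Agent.W192.HK.Parts

/-! Counting ideals of an imaginary quadratic field. -/

set_option autoImplicit false

open Complex Filter Topology Set

namespace Pool.Agent.W584.HK

open Pool.Agent.W192.HK

lemma summable_of_count {ι : Type*} (n : ι → ℝ) (hn : ∀ i, n i = 0 ∨ 1 ≤ n i) (C : ℝ) (hC : 0 ≤ C)
    (hfin : ∀ y : ℝ, {i | n i ≤ y}.Finite)
    (hc : ∀ y : ℝ, 1 ≤ y → ((Set.ncard {i | n i ≤ y} : ℕ) : ℝ) ≤ C * y) (σ : ℝ) (hσ : 1 < σ) :
    Summable (fun i => (n i) ^ (-σ)) := by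
  classical
  have hk : ∀ i, ∃ k : ℕ, n i = 0 ∨ ((2 : ℝ) ^ k ≤ n i ∧ n i < (2 : ℝ) ^ (k + 1)) := by
    intro i
    rcases hn i with h | h
    · exact ⟨0, Or.inl h⟩
    · obtain ⟨k, h1, h2⟩ := exists_nat_pow_near h (one_lt_two : (1 : ℝ) < 2)
      exact ⟨k, Or.inr ⟨h1, h2⟩⟩
  choose k hk using hk
  have hn0 : ∀ i, 0 ≤ n i := fun i => by
    rcases hn i with h | h
    · exact h.ge
    · linarith
  obtain ⟨r, hr⟩ : ∃ r : ℝ, r = (2 : ℝ) ^ (1 - σ) := ⟨_, rfl⟩
  have hr0 : 0 < r := by rw [hr]; positivity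
  have hr1 : r < 1 := by
    rw [hr]; exact Real.rpow_lt_one_of_one_lt_of_neg one_lt_two (by linarith)
  have hsum : Summable (fun j : ℕ => 2 * C * r ^ j) :=
    (summable_geometric_of_lt_one hr0.le hr1).mul_left _
  refine summable_of_sum_le (c := ∑' j : ℕ, 2 * C * r ^ j)
    (fun i => Real.rpow_nonneg (hn0 i) _) ?_
  intro F
  rw [← Finset.sum_fiberwise_of_maps_to (g := k) (t := F.image k)
    (fun i hi => Finset.mem_image_of_mem k hi)]
  refine (Finset.sum_le_sum (g := fun j => 2 * C * r ^ j) ?_).trans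
    (hsum.sum_le_tsum _ (fun j _ => by positivity))
  intro j _
  have hterm : ∀ i ∈ F.filter (fun i => k i = j), n i ^ (-σ) ≤ ((2 : ℝ) ^ j) ^ (-σ) := by
    intro i hi
    have hkj := (Finset.mem_filter.1 hi).2
    rcases hk i with h | ⟨h1, h2⟩
    · rw [h, Real.zero_rpow (by linarith)]
      positivity
    · rw [hkj] at h1
      exact Real.rpow_le_rpow_of_nonpos (by positivity) h1 (by linarith)
  have hcard : ((F.filter (fun i => k i = j)).card : ℝ) ≤ C * (2 : ℝ) ^ (j + 1) := by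
    have hsub : ((F.filter (fun i => k i = j) : Finset ι) : Set ι) ⊆ {i | n i ≤ (2 : ℝ) ^ (j + 1)} := by
      intro i hi
      have hkj := (Finset.mem_filter.1 (Finset.mem_coe.1 hi)).2
      show n i ≤ (2 : ℝ) ^ (j + 1)
      rcases hk i with h | ⟨h1, h2⟩
      · rw [h]; positivity
      · rw [hkj] at h2; exact h2.le
    have h1 := Set.ncard_le_ncard hsub (hfin _)
    rw [Set.ncard_coe_finset] at h1
    refine le_trans (by exact_mod_cast h1) (hc _ ?_)
    exact one_le_pow₀ (by norm_num)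
  calc ∑ i ∈ F.filter (fun i => k i = j), n i ^ (-σ)
      ≤ ∑ i ∈ F.filter (fun i => k i = j), ((2 : ℝ) ^ j) ^ (-σ) := Finset.sum_le_sum hterm
    _ = ((F.filter (fun i => k i = j)).card : ℝ) * ((2 : ℝ) ^ j) ^ (-σ) := by
        rw [Finset.sum_const, nsmul_eq_mul]
    _ ≤ (C * (2 : ℝ) ^ (j + 1)) * ((2 : ℝ) ^ j) ^ (-σ) :=
        mul_le_mul_of_nonneg_right hcard (by positivity)
    _ = 2 * C * r ^ j := by
        have h3 : ((2 : ℝ) ^ j) ^ (-σ) = ((2 : ℝ) ^ (-σ)) ^ j := by
          rw [← Real.rpow_natCast, ← Real.rpow_natCast, ← Real.rpow_mul (by norm_num),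
            ← Real.rpow_mul (by norm_num), mul_comm]
        have h4 : r = 2 * (2 : ℝ) ^ (-σ) := by
          rw [hr, sub_eq_add_neg, Real.rpow_add (by norm_num), Real.rpow_one]
        rw [h3, h4, mul_pow, pow_succ]
        ring

lemma cover {R : Subring ℂ} [IsDedekindDomain R] (s : Finset (Ideal R)) (hs : ∀ b ∈ s, b ≠ ⊥)
    (S : Set (Ideal R)) (A : Ideal R → Set R) (hA : ∀ b ∈ s, (A b).Finite)
    (hS : ∀ I ∈ S, ∃ b ∈ s, ∃ α ∈ A b, I * b = sp α) :
    S.Finite ∧ (S.ncard : ℝ) ≤ ∑ b ∈ s, ((A b).ncard : ℝ) := by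
  classical
  have h1 : S ⊆ ⋃ b ∈ s, (quo b) '' (A b) := by
    intro I hI
    obtain ⟨b, hb, α, hα, he⟩ := hS I hI
    simp only [Set.mem_iUnion]
    refine ⟨b, hb, α, hα, ?_⟩
    have hex : ∃ J : Ideal R, J * b = sp α := ⟨I, he⟩
    have hq : quo b α * b = sp α := by
      unfold quo
      rw [dif_pos hex]
      exact Classical.choose_spec hex
    exact mul_right_cancel₀ (hs b hb) (hq.trans he.symm)
  have h2 : (⋃ b ∈ s, (quo b) '' (A b)).Finite :=
    s.finite_toSet.biUnion (fun b hb => (hA b hb).image _)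
  refine ⟨h2.subset h1, ?_⟩
  have h3 : S.ncard ≤ ∑ b ∈ s, (A b).ncard := by
    refine (Set.ncard_le_ncard h1 h2).trans ((Finset.set_ncard_biUnion_le s _).trans ?_)
    exact Finset.sum_le_sum (fun b hb => Set.ncard_image_le (hA b hb))
  exact_mod_cast h3

lemma chi_pow {R : Subring ℂ} {c : Ideal R} {χ : Ideal R → ℂ} (h : RC c χ) (I : Ideal R) (n : ℕ)
    (hn : 1 ≤ n) : χ (I ^ n) = χ I ^ n := by
  induction n, hn using Nat.le_induction with
  | base => simp
  | succ n _ ih => rw [pow_succ, h.mul, ih, pow_succ]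

open Classical in
theorem h_cnt (h1 : H_BASIC) (h2 : H_CLS) (h3 : H_FPR) (h4 : H_LAT) (h5 : H_KER) : H_CNT := by
  intro R ω hQ
  obtain ⟨bfin, bbot, bone, bmul, bsp, bdvd, btop, bnat, bunit⟩ := h1 R ω hQ
  obtain ⟨h, hh1, hpow, hsys⟩ := h2 R ω hQ
  have hFPR := h3 R ω hQ
  obtain ⟨CL, hCL, hlat⟩ := h4 R ω hQ
  obtain ⟨CK, hCK, hker⟩ := h5 R ω hQ
  have := hQ.ded
  have hhR : (1 : ℝ) ≤ h := by exact_mod_cast hh1
  have nm_nonneg : ∀ I : Ideal R, 0 ≤ nm I := fun I => by unfold nm; positivity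
  have nm_pos : ∀ I : Ideal R, I ≠ ⊥ → 0 < nm I := fun I hI => by linarith [bone I hI]
  -- all ideals
  obtain ⟨s0, hh0, μ0, T0, hs0c, hs0⟩ := hsys ⊤ (by exact top_ne_bot)
  have hcount : ∀ y : ℝ, 0 ≤ y → {I : Ideal R | nm I ≤ y}.Finite ∧
      (Set.ncard {I : Ideal R | nm I ≤ y} : ℝ) ≤ 1 + h * (CL * (1 + y)) := by
    intro y hy
    have hc := cover s0 hs0.cs.ne {I : Ideal R | nm I ≤ y ∧ I ≠ ⊥}
      (fun b => {α : R | Complex.normSq (α : ℂ) ≤ y * nm b ∧ α - 0 ∈ b})
      (fun b hb => (hlat b (hs0.cs.ne b hb) 0 (y * nm b) (mul_nonneg hy (nm_nonneg b))).1)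
      (by
        rintro I ⟨hI, hI0⟩
        obtain ⟨b, ⟨hb, α, hα⟩, _⟩ := hs0.cs.uni I hI0
        refine ⟨b, hb, α, ⟨?_, ?_⟩, hα⟩
        · rw [← bsp α, ← hα, bmul]
          exact mul_le_mul_of_nonneg_right hI (nm_nonneg b)
        · rw [sub_zero]
          have : α ∈ I * b := by rw [hα]; exact Ideal.mem_span_singleton_self α
          exact Ideal.mul_le_right this)
    have hsub : {I : Ideal R | nm I ≤ y} ⊆ insert ⊥ {I : Ideal R | nm I ≤ y ∧ I ≠ ⊥} := by
      intro I hI
      by_cases hI0 : I = ⊥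
      · exact Or.inl hI0
      · exact Or.inr ⟨hI, hI0⟩
    have hfin := hc.1.insert (⊥ : Ideal R)
    refine ⟨hfin.subset hsub, ?_⟩
    have h6 : (Set.ncard {I : Ideal R | nm I ≤ y} : ℝ) ≤
        (Set.ncard {I : Ideal R | nm I ≤ y ∧ I ≠ ⊥} : ℝ) + 1 := by
      have h7 := (Set.ncard_le_ncard hsub hfin).trans (Set.ncard_insert_le _ _)
      exact_mod_cast h7
    have h8 : ∑ b ∈ s0, ((Set.ncard {α : R | Complex.normSq (α : ℂ) ≤ y * nm b ∧ α - 0 ∈ b} : ℕ) : ℝ)
        ≤ h * (CL * (1 + y)) := by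
      calc _ ≤ ∑ b ∈ s0, CL * (1 + y) := by
            refine Finset.sum_le_sum (fun b hb => ?_)
            have h9 := (hlat b (hs0.cs.ne b hb) 0 (y * nm b) (mul_nonneg hy (nm_nonneg b))).2
            rwa [mul_div_cancel_right₀ _ (nm_pos b (hs0.cs.ne b hb)).ne'] at h9
        _ = h * (CL * (1 + y)) := by rw [Finset.sum_const, nsmul_eq_mul, hs0c]
    have h10 := hc.2
    linarith
  have hfinall : ∀ y : ℝ, {I : Ideal R | nm I ≤ y}.Finite := by
    intro y
    refine (hcount (max y 0) (le_max_right _ _)).1.subset ?_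
    intro I hI
    exact le_trans (show nm I ≤ y from hI) (le_max_left _ _)
  obtain ⟨C0, hC0⟩ : ∃ C0 : ℝ, C0 = 1 + 2 * h * CL := ⟨_, rfl⟩
  have hC0pos : 0 < C0 := by rw [hC0]; positivity
  have hcy : ∀ y : ℝ, 1 ≤ y → (Set.ncard {I : Ideal R | nm I ≤ y} : ℝ) ≤ C0 * y := by
    intro y hy
    refine (hcount y (by linarith)).2.trans ?_
    rw [hC0]
    have : (h : ℝ) * (CL * (1 + y)) ≤ h * (CL * (2 * y)) := by
      refine mul_le_mul_of_nonneg_left (mul_le_mul_of_nonneg_left (by linarith) hCL.le) (by linarith)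
    nlinarith
  refine ⟨hfinall, ?_, ?_⟩
  · intro σ hσ
    refine summable_of_count (fun I : Ideal R => nm I) ?_ C0 hC0pos.le hfinall hcy σ hσ
    intro I
    by_cases hI : I = ⊥
    · left; rw [hI]; exact bbot
    · right; exact bone I hI
  refine ⟨C0 * h + CK + h * CK * CL + h, by positivity, ?_, ?_⟩
  · intro y hy
    refine (hcy y hy).trans ?_
    refine mul_le_mul_of_nonneg_right ?_ (by linarith)
    have : C0 * 1 ≤ C0 * h := mul_le_mul_of_nonneg_left hhR hC0pos.le
    have : 0 ≤ h * CK * CL := by positivity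
    linarith
  intro c χ hχ d hd
  have hdpos : (0 : ℝ) < d := by exact_mod_cast hd.pos
  obtain ⟨hper, hnorm, htop, _⟩ := hFPR c χ hχ
  have hcpos := nm_pos c hχ.ne
  by_cases hctop : c = ⊤
  · -- trivial conductor
    have hnm1 : nm c = 1 := (btop c).2 hctop
    have hdh : d ≤ h := by
      refine hd.least h (by omega) ?_
      intro I hI
      obtain ⟨α, hα⟩ := hpow I
      have h6 := chi_pow hχ I h hh1
      rw [hα] at h6
      have hα0 : α ≠ 0 := by
        intro h0
        rw [h0] at h6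
        have h7 : χ (sp (0 : R)) = 0 := by
          refine (hχ.zero _).2 (Or.inl ?_)
          simp [sp]
        rw [h7] at h6
        exact (pow_ne_zero h hI) h6.symm
      rw [← h6]
      exact hχ.princ α hα0 (by rw [hctop]; trivial)
    have hdhR : (d : ℝ) ≤ h := by exact_mod_cast hdh
    refine ⟨?_, ?_⟩
    · rw [hnm1, mul_one]
      have : 0 ≤ C0 * h := by positivity
      have : 0 ≤ h * CK * CL := by positivity
      linarith
    · intro e he y hy
      have hepos : 0 < e := Nat.pos_of_dvd_of_pos he hd.pos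
      have heR : (0 : ℝ) < e := by exact_mod_cast hepos
      have heh : (e : ℝ) ≤ h := by
        exact_mod_cast (Nat.le_of_dvd hd.pos he).trans hdh
      have h6 : (cntI χ (d / e) y : ℝ) ≤ C0 * y := by
        refine le_trans ?_ (hcy y hy)
        have h7 : cntI χ (d / e) y ≤ Set.ncard {I : Ideal R | nm I ≤ y} := by
          unfold cntI
          exact Set.ncard_le_ncard (fun I hI => hI.1) (hfinall y)
        exact_mod_cast h7
      refine h6.trans ?_
      rw [hnm1, div_one]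
      have h8 : C0 * y ≤ C0 * h * (1 + y) * (1 / e) := by
        rw [mul_one_div, le_div_iff₀ heR]
        have h9 : C0 * y * e ≤ C0 * y * h := mul_le_mul_of_nonneg_left heh (by positivity)
        nlinarith [mul_pos hC0pos (by linarith : (0 : ℝ) < h)]
      refine h8.trans ?_
      refine mul_le_mul_of_nonneg_right (mul_le_mul_of_nonneg_right ?_ (by linarith)) (by positivity)
      have : 0 ≤ h * CK * CL := by positivity
      linarith
  · obtain ⟨s, hh, μ, T, hsc, hS⟩ := hsys c hχ.ne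
    have hTz : ∀ α x : R, IsCoprime (sp α) c → α - x ∈ c → x ≠ 0 := by
      intro α x hcop hx h0
      rw [h0, sub_zero] at hx
      have h6 : sp α ≤ c := by
        rw [Ideal.span_singleton_le_iff_mem]; exact hx
      have h7 := Ideal.isCoprime_iff_sup_eq.1 hcop
      rw [sup_eq_right.2 h6] at h7
      exact hctop h7
    refine ⟨?_, ?_⟩
    · -- the order
      obtain ⟨x, ⟨hxT, hx⟩, _⟩ := hS.rp.uni 1
      have hsp1 : sp (1 : R) = ⊤ := Ideal.span_singleton_one
      have hx0 : x ≠ 0 := by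
        refine hTz 1 x ?_ hx
        exact Ideal.isCoprime_iff_sup_eq.2 (by rw [hsp1, top_sup_eq])
      have hχx : χ (sp x) = 1 := by
        rw [← hper 1 x one_ne_zero hx0 hx, hsp1, htop]
      have h6 := hker c χ hχ d hd d dvd_rfl c hh T dvd_rfl hχ.ne hS.rp 1
      have h7 : 0 < (T.filter (fun x : R => χ (sp x) ≠ 0 ∧ χ (sp x) ^ (d / d) = 1)).card := by
        refine Finset.card_pos.2 ⟨x, Finset.mem_filter.2 ⟨hxT, ?_, ?_⟩⟩
        · rw [hχx]; exact one_ne_zero
        · rw [hχx, one_pow]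
      have h8 : (1 : ℝ) ≤ CK * nm c / d := by
        refine le_trans ?_ h6
        exact_mod_cast h7
      rw [le_div_iff₀ hdpos, one_mul] at h8
      refine h8.trans ?_
      refine mul_le_mul_of_nonneg_right ?_ hcpos.le
      have : 0 ≤ C0 * h := by positivity
      have : 0 ≤ h * CK * CL := by positivity
      linarith
    · intro e he y hy
      have hepos : 0 < e := Nat.pos_of_dvd_of_pos he hd.pos
      have heR : (0 : ℝ) < e := by exact_mod_cast hepos
      let Tf : Ideal R → Finset R := fun b =>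
        T.filter (fun x : R => χ (sp x) ≠ 0 ∧ χ (sp x) ^ (d / e) = χ b ^ (d / e))
      have hTf : ∀ b, ((Tf b).card : ℝ) ≤ CK * nm c / e := fun b =>
        hker c χ hχ d hd e he c hh T dvd_rfl hχ.ne hS.rp (χ b ^ (d / e))
      let A : Ideal R → Set R := fun b => ⋃ x ∈ Tf b,
        {α : R | Complex.normSq (α : ℂ) ≤ y * nm b ∧ α - x ∈ b * c}
      have hbc : ∀ b ∈ s, b * c ≠ ⊥ := fun b hb => mul_ne_zero (hS.cs.ne b hb) hχ.ne
      have hAf : ∀ b ∈ s, (A b).Finite := fun b hb =>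
        (Tf b).finite_toSet.biUnion (fun x _ =>
          (hlat (b * c) (hbc b hb) x (y * nm b) (mul_nonneg (by linarith) (nm_nonneg b))).1)
      have hAc : ∀ b ∈ s, ((A b).ncard : ℝ) ≤ (CK * nm c / e) * (CL * (1 + y / nm c)) := by
        intro b hb
        have hbpos := nm_pos b (hS.cs.ne b hb)
        have h6 : ((A b).ncard : ℝ) ≤ ∑ x ∈ Tf b,
            ((Set.ncard {α : R | Complex.normSq (α : ℂ) ≤ y * nm b ∧ α - x ∈ b * c} : ℕ) : ℝ) := by
          have h7 := Finset.set_ncard_biUnion_le (Tf b)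
            (fun x => {α : R | Complex.normSq (α : ℂ) ≤ y * nm b ∧ α - x ∈ b * c})
          exact_mod_cast h7
        have h8 : ∀ x ∈ Tf b,
            ((Set.ncard {α : R | Complex.normSq (α : ℂ) ≤ y * nm b ∧ α - x ∈ b * c} : ℕ) : ℝ) ≤
              CL * (1 + y / nm c) := by
          intro x _
          have h9 := (hlat (b * c) (hbc b hb) x (y * nm b)
            (mul_nonneg (by linarith) (nm_nonneg b))).2
          have h10 : y * nm b / nm (b * c) = y / nm c := by
            rw [bmul, mul_comm y (nm b), mul_div_mul_left _ _ hbpos.ne']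
          rwa [h10] at h9
        calc ((A b).ncard : ℝ) ≤ _ := h6
          _ ≤ ∑ x ∈ Tf b, CL * (1 + y / nm c) := Finset.sum_le_sum h8
          _ = ((Tf b).card : ℝ) * (CL * (1 + y / nm c)) := by rw [Finset.sum_const, nsmul_eq_mul]
          _ ≤ _ := mul_le_mul_of_nonneg_right (hTf b) (by positivity)
      have hcov := cover s hS.cs.ne {I : Ideal R | nm I ≤ y ∧ χ I ≠ 0 ∧ χ I ^ (d / e) = 1} A hAf
        (by
          rintro I ⟨hI, hI0, hI1⟩
          have hIb : I ≠ ⊥ := fun h0 => hI0 ((hχ.zero I).2 (Or.inl h0))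
          obtain ⟨b, ⟨hb, α, hα⟩, _⟩ := hS.cs.uni I hIb
          have hb0 : b ≠ ⊥ := hS.cs.ne b hb
          have hχb : χ b ≠ 0 := fun h0 => by
            rcases (hχ.zero b).1 h0 with h6 | h6
            · exact hb0 h6
            · exact h6 (hS.cp b hb)
          have hχα : χ (sp α) = χ I * χ b := by rw [← hα, hχ.mul]
          have hχα0 : χ (sp α) ≠ 0 := by rw [hχα]; exact mul_ne_zero hI0 hχb
          have hα0 : α ≠ 0 := by
            intro h0
            apply mul_ne_zero hIb hb0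
            rw [hα, h0]
            simp [sp]
          have hcop : IsCoprime (sp α) c := by
            by_contra h0
            exact hχα0 ((hχ.zero _).2 (Or.inr h0))
          obtain ⟨x, ⟨hxT, hx⟩, _⟩ := hS.rp.uni α
          have hx0 : x ≠ 0 := hTz α x hcop hx
          have hχx : χ (sp x) = χ (sp α) := (hper α x hα0 hx0 hx).symm
          have hαb : α ∈ b := by
            have : α ∈ I * b := by rw [hα]; exact Ideal.mem_span_singleton_self α
            exact Ideal.mul_le_right this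
          have hxb : x ∈ b := Ideal.le_of_dvd (hS.dvd b hb) (hS.rp.mem x hxT)
          refine ⟨b, hb, α, ?_, hα⟩
          refine Set.mem_iUnion.2 ⟨x, Set.mem_iUnion.2 ⟨Finset.mem_filter.2 ⟨hxT, ?_, ?_⟩, ?_, ?_⟩⟩
          · rw [hχx]; exact hχα0
          · rw [hχx, hχα, mul_pow, hI1, one_mul]
          · rw [← bsp α, ← hα, bmul]
            exact mul_le_mul_of_nonneg_right hI (nm_nonneg b)
          · rw [← Ideal.inf_eq_mul_of_isCoprime (hS.cp b hb)]
            exact ⟨b.sub_mem hαb hxb, hx⟩)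
      have h11 : (cntI χ (d / e) y : ℝ) ≤ h * ((CK * nm c / e) * (CL * (1 + y / nm c))) := by
        refine le_trans hcov.2 ?_
        calc _ ≤ ∑ b ∈ s, (CK * nm c / e) * (CL * (1 + y / nm c)) := Finset.sum_le_sum hAc
          _ = _ := by rw [Finset.sum_const, nsmul_eq_mul, hsc]
      refine h11.trans ?_
      have h12 : (h : ℝ) * ((CK * nm c / e) * (CL * (1 + y / nm c))) =
          (h * CK * CL) * (1 + y / nm c) * (nm c / e) := by ring
      rw [h12]
      have h13 : 0 ≤ y / nm c := div_nonneg (by linarith) hcpos.le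
      refine mul_le_mul_of_nonneg_right (mul_le_mul_of_nonneg_right ?_ (by linarith)) (by positivity)
      have : 0 ≤ C0 * h := by positivity
      linarith

end Pool.Agent.W584.HK
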